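import Pool.Agent.K7.H86.QC.Conv

/-!
# MP_e2b804_an: mixed concentration and polyharmonic blow-up for a planar profile, `n = 4`

For every finite set `A ⊆ ℝ³` there are solutions `u_k` of `Δ² u_k = V_k e^{4 u_k}` in
`Ω = (-2,2) × ℝ³` as in the problem, which concentrate exactly at the points of `{-1} × A` and for
which `u_k / β_k → φ` in `C^{3,α}_loc` off the singular sets, `φ(x) = x₁ - x₁³/3 - 2/3`. Moreover
`u_k → +∞` locally uniformly on the polyharmonic blow-up set `{1} × ℝ³`, and the mass concentrated at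
each point of `{-1} × A` is exactly `Λ₁ = 16 π²`.

Construction: `u_k = β φ - |x'|² + log δ - ∑ log (r_j² + |x - a_j|²) + w_k`, where `β = m⁶⁴`, `δ = m`,
`r_j = c_j m e^{-4β/3}` and `w_k` is a biharmonic (logarithmic) potential which tends to zero.
-/

set_option autoImplicit false

open MeasureTheory Set Filter Topology Metric
open scoped ContDiff Laplacian InnerProductSpace

namespace Pool.Agent.Results.MP_e2b804_an.EveryFiniteSet

/-- Euclidean four-space; the coordinates `x₁, …, x₄` of the problem are `x 0, …, x 3`. -/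
abbrev E4 := EuclideanSpace ℝ (Fin 4)

/-- The domain `Ω = (-2,2) × ℝ³`. -/
def Omega : Set E4 := {x | -2 < x 0 ∧ x 0 < 2}

/-- The profile `φ(x) = x₁ - x₁³/3 - 2/3`. -/
noncomputable def phi (x : E4) : ℝ := x 0 - (x 0) ^ 3 / 3 - 2 / 3

/-- The constant `Λ₁ = 6 |S⁴| = 16 π²`. -/
noncomputable def Lambda1 : ℝ := 16 * Real.pi ^ 2

/-- The sequences of the problem: `u_k` solves `Δ² u_k = V_k e^{4 u_k}` in `Ω`, the volumes
`∫_Ω e^{4 u_k}` are bounded, `V_k ∈ L^∞(Ω)`, and `V_k` converges locally uniformly in `Ω` to a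
continuous positive function. -/
structure Admissible (V u : ℕ → E4 → ℝ) : Prop where
  smooth : ∀ k, ContDiffOn ℝ ∞ (u k) Omega
  eqn : ∀ k, ∀ x ∈ Omega, (Δ (Δ (u k))) x = V k x * Real.exp (4 * u k x)
  volume_bound : ∃ C : ℝ, ∀ k, IntegrableOn (fun x => Real.exp (4 * u k x)) Omega ∧
    ∫ x in Omega, Real.exp (4 * u k x) ≤ C
  V_bounded : ∀ k, MemLp (V k) ⊤ (volume.restrict Omega)
  V_limit : ∃ V0 : E4 → ℝ, ContinuousOn V0 Omega ∧ (∀ x ∈ Omega, 0 < V0 x) ∧
    TendstoLocallyUniformlyOn V V0 atTop Omega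

/-- The concentration blow-up set `S₁`: the points `x ∈ Ω` at which the limit, as `r → 0+`, of
`liminf_k ∫_{B_r(x)} V_k e^{4 u_k}` is at least `Λ₁ / 2`. -/
def S1 (V u : ℕ → E4 → ℝ) : Set E4 :=
  {x | x ∈ Omega ∧ ∃ L : ℝ, Tendsto (fun r : ℝ =>
    liminf (fun k => ∫ y in ball x r, V k y * Real.exp (4 * u k y)) atTop) (𝓝[>] 0) (𝓝 L) ∧
    Lambda1 / 2 ≤ L}

/-- The class `𝒦(Ω, S)`: smooth functions `ψ` on `Ω ∖ S` with `ψ ≤ 0`, `ψ ≢ 0` and `Δ² ψ = 0`. -/
structure InK (S : Set E4) (ψ : E4 → ℝ) : Prop where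
  smooth : ContDiffOn ℝ ∞ ψ (Omega \ S)
  nonpos : ∀ x ∈ Omega \ S, ψ x ≤ 0
  nonzero : ∃ x ∈ Omega \ S, ψ x ≠ 0
  biharmonic : ∀ x ∈ Omega \ S, (Δ (Δ ψ)) x = 0

/-- The zero set `S_ψ = {x ∈ Ω ∖ S : ψ x = 0}`. -/
def Zero (S : Set E4) (ψ : E4 → ℝ) : Set E4 := {x | x ∈ Omega \ S ∧ ψ x = 0}

/-- Convergence `g_k → g` in `C^{3,α}_loc(U)`: on every compact subset of `U` the derivatives of
`g_k - g` of order at most `3` tend to `0` uniformly, and so does the `α`-Hölder seminorm of the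
third derivative. -/
def ConvC3 (α : ℝ) (U : Set E4) (g : ℕ → E4 → ℝ) (g0 : E4 → ℝ) : Prop :=
  ∀ K : Set E4, IsCompact K → K ⊆ U → ∀ ε : ℝ, 0 < ε → ∀ᶠ k in atTop,
    (∀ j ≤ 3, ∀ x ∈ K, ‖iteratedFDeriv ℝ j (fun z => g k z - g0 z) x‖ ≤ ε) ∧
    ∀ x ∈ K, ∀ y ∈ K, ‖iteratedFDeriv ℝ 3 (fun z => g k z - g0 z) x
      - iteratedFDeriv ℝ 3 (fun z => g k z - g0 z) y‖ ≤ ε * ‖x - y‖ ^ α

/-- The second alternative of the dichotomy holds for `(V_k), (u_k)` with the profile `ψ`: one has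
`ψ ∈ 𝒦(Ω, S₁)` and there are `β_k → ∞` with `u_k / β_k → ψ` in `C^{3,α}_loc(Ω ∖ (S₁ ∪ S_ψ))` for
all `α ∈ [0,1)`. -/
def SecondAlternative (V u : ℕ → E4 → ℝ) (ψ : E4 → ℝ) : Prop :=
  InK (S1 V u) ψ ∧ ∃ β : ℕ → ℝ, Tendsto β atTop atTop ∧ ∀ α : ℝ, 0 ≤ α → α < 1 →
    ConvC3 α (Omega \ (S1 V u ∪ Zero (S1 V u) ψ)) (fun k x => u k x / β k) ψ

/-- The point `(t, a) ∈ ℝ × ℝ³`. -/
noncomputable def pt (t : ℝ) (a : EuclideanSpace ℝ (Fin 3)) : E4 := !₂[t, a 0, a 1, a 2]

open Pool.Agent.K7.H86.QC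

lemma pt_zero (t : ℝ) (a : EuclideanSpace ℝ (Fin 3)) : pt t a 0 = t := by
  simp [pt]

theorem result (A : Set (EuclideanSpace ℝ (Fin 3))) (hA : A.Finite) :
    ∃ V u : ℕ → E4 → ℝ, Admissible V u ∧
      S1 V u = {x | ∃ a ∈ A, x = pt (-1) a} ∧
      SecondAlternative V u phi ∧
      Zero (S1 V u) phi = {x | x 0 = 1} ∧
      (∀ K : Set E4, IsCompact K → K ⊆ {x | x 0 = 1} → ∀ B : ℝ, ∀ᶠ k in atTop, ∀ x ∈ K, B ≤ u k x) ∧
      (∀ a ∈ A, ∃ r0 : ℝ, 0 < r0 ∧ ∀ r, 0 < r → r < r0 →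
        Tendsto (fun k => ∫ y in ball (pt (-1) a) r, V k y * Real.exp (4 * u k y)) atTop (𝓝 Lambda1)) ∧
      (∀ k x, 0 ≤ V k x) := by
  classical
  set P : Finset E4 := hA.toFinset.image (pt (-1)) with hP
  have hPm : ∀ x, x ∈ P ↔ ∃ a ∈ A, x = pt (-1) a := by
    intro x
    rw [hP, Finset.mem_image]
    constructor
    · rintro ⟨a, ha, rfl⟩
      exact ⟨a, by simpa using ha, rfl⟩
    · rintro ⟨a, ha, rfl⟩
      exact ⟨a, by simpa using ha, rfl⟩
  have hP1 : ∀ p ∈ P, p 0 = -1 := by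
    intro p hp
    obtain ⟨a, _, rfl⟩ := (hPm p).1 hp
    exact pt_zero _ _
  obtain ⟨ρ, M, h⟩ := exists_Cfg P hP1
  obtain ⟨C, hC⟩ := vol_bound h
  obtain ⟨n0, hn0⟩ := eventually_atTop.1 hC
  have hshift : Tendsto (fun k : ℕ => k + n0) atTop atTop := tendsto_add_atTop_nat n0
  have hPO : ∀ p ∈ P, p ∈ Om := by
    intro p hp
    have := hP1 p hp
    constructor <;> linarith
  -- the local masses
  have hoff : ∀ x, x ∉ P → ∃ r0 : ℝ, 0 < r0 ∧ ∀ r, 0 < r → r < r0 →
      Tendsto (fun k => ∫ y in ball x r, VV P (k + n0) y * Real.exp (4 * uu P (k + n0) y)) atTop (𝓝 0) := by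
    intro x hx
    obtain ⟨r0, hr0, hr⟩ := conc_off h hx
    exact ⟨r0, hr0, fun r h1 h2 => (hr r h1 h2).comp hshift⟩
  have hon : ∀ p ∈ P, ∃ r0 : ℝ, 0 < r0 ∧ ∀ r, 0 < r → r < r0 →
      Tendsto (fun k => ∫ y in ball p r, VV P (k + n0) y * Real.exp (4 * uu P (k + n0) y)) atTop
        (𝓝 Lambda1) := by
    intro p hp
    obtain ⟨r0, hr0, hr⟩ := conc_on h hp
    exact ⟨r0, hr0, fun r h1 h2 => (hr r h1 h2).comp hshift⟩
  have hlim : ∀ (x : E4) (L : ℝ), (∃ r0 : ℝ, 0 < r0 ∧ ∀ r, 0 < r → r < r0 →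
      Tendsto (fun k => ∫ y in ball x r, VV P (k + n0) y * Real.exp (4 * uu P (k + n0) y)) atTop (𝓝 L)) →
      Tendsto (fun r : ℝ => liminf (fun k => ∫ y in ball x r,
        VV P (k + n0) y * Real.exp (4 * uu P (k + n0) y)) atTop) (𝓝[>] 0) (𝓝 L) := by
    rintro x L ⟨r0, hr0, hr⟩
    apply tendsto_const_nhds.congr'
    filter_upwards [Ioo_mem_nhdsGT hr0] with r hr'
    exact (hr r hr'.1 hr'.2).liminf_eq.symm
  have hL0 : 0 < Lambda1 := by unfold Lambda1; positivity
  have hS1 : S1 (fun k => VV P (k + n0)) (fun k => uu P (k + n0)) = {x | ∃ a ∈ A, x = pt (-1) a} := by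
    ext x
    rw [mem_setOf_eq, ← hPm x]
    constructor
    · rintro ⟨_, L, hL, hle⟩
      by_contra hx
      have h1 := hlim x 0 (hoff x hx)
      have h2 : L = 0 := tendsto_nhds_unique hL h1
      rw [h2] at hle
      linarith
    · intro hx
      exact ⟨hPO x hx, Lambda1, hlim x Lambda1 (hon x hx), by linarith⟩
  have hS1' : S1 (fun k => VV P (k + n0)) (fun k => uu P (k + n0)) = (P : Set E4) := by
    rw [hS1]
    ext x
    rw [mem_setOf_eq, ← hPm x]
    rfl
  have hphi : phi = Pool.Agent.K7.H86.QC.phi := rfl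
  have hZero : Zero (P : Set E4) phi = {x | x 0 = 1} := by
    ext x
    constructor
    · rintro ⟨⟨hO, _⟩, hx⟩
      rw [hphi, phi_eq] at hx
      have h1 : 0 < x 0 + 2 := by linarith [hO.1]
      have h2 : (x 0 - 1) ^ 2 = 0 := by
        by_contra hne
        have h3 : 0 < (x 0 - 1) ^ 2 := lt_of_le_of_ne (sq_nonneg _) (Ne.symm hne)
        nlinarith [mul_pos h3 h1]
      have h3 : x 0 - 1 = 0 := by simpa using h2
      show x 0 = 1
      linarith
    · intro hx
      have hx1 : x 0 = 1 := hx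
      refine ⟨⟨⟨by rw [hx1]; norm_num, by rw [hx1]; norm_num⟩, fun hxP => ?_⟩, ?_⟩
      · have := hP1 x hxP
        rw [hx1] at this
        norm_num at this
      · unfold phi
        rw [hx1]
        norm_num
  refine ⟨fun k => VV P (k + n0), fun k => uu P (k + n0), ?_, hS1, ?_, ?_, ?_, ?_, ?_⟩
  · -- admissibility
    refine ⟨fun k => (uu_contDiff P _).contDiffOn, fun k x _ => eqn P _ x, ⟨max C 0, fun k => ?_⟩,
      fun k => VV_memLp _, ⟨fun _ => 1, continuousOn_const, fun x _ => one_pos, ?_⟩⟩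
    · have h1 := hn0 (k + n0) (Nat.le_add_left _ _)
      have hcont : Continuous (fun x => Real.exp (4 * uu P (k + n0) x)) := by
        have := (uu_contDiff P (k + n0)).continuous
        fun_prop
      have hint : IntegrableOn (fun x => Real.exp (4 * uu P (k + n0) x)) Omega := by
        refine ⟨hcont.aestronglyMeasurable, ?_⟩
        rw [hasFiniteIntegral_iff_ofReal (ae_of_all _ fun x => (Real.exp_pos _).le)]
        exact h1.trans_lt ENNReal.ofReal_lt_top
      refine ⟨hint, ?_⟩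
      have h2 := ofReal_integral_eq_lintegral_ofReal hint (ae_of_all _ fun x => (Real.exp_pos _).le)
      have h3 : ENNReal.ofReal (∫ x in Omega, Real.exp (4 * uu P (k + n0) x)) ≤ ENNReal.ofReal (max C 0) := by
        rw [h2]
        exact h1.trans (ENNReal.ofReal_le_ofReal (le_max_left _ _))
      exact (ENNReal.ofReal_le_ofReal_iff (le_max_right _ _)).1 h3
    · have h1 := VV_tendsto h
      rw [tendstoLocallyUniformlyOn_iff_forall_isCompact Om_open] at h1
      have h2 : IsOpen Omega := Om_open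
      rw [tendstoLocallyUniformlyOn_iff_forall_isCompact h2]
      intro K hKO hK
      have h3 := h1 K hKO hK
      intro s hs
      exact hshift.eventually (h3 s hs)
  · -- the second alternative
    have hset : Omega \ (S1 (fun k => VV P (k + n0)) (fun k => uu P (k + n0)) ∪
        Zero (S1 (fun k => VV P (k + n0)) (fun k => uu P (k + n0))) phi) = Om \ Sing P := by
      rw [hS1', hZero]
      rfl
    refine ⟨?_, fun k => bb (k + n0), bb_top.comp hshift, ?_⟩
    · rw [hS1']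
      refine ⟨phi_contDiff.contDiffOn, ?_, ?_, ?_⟩
      · intro x hx
        rw [hphi, phi_eq]
        have h1 : 0 < x 0 + 2 := by linarith [hx.1.1]
        nlinarith [mul_nonneg (sq_nonneg (x 0 - 1)) h1.le]
      · refine ⟨0, ⟨?_, ?_⟩, ?_⟩
        · constructor <;> simp
        · intro h0
          have := hP1 0 h0
          simp at this
        · unfold phi
          simp
      · intro x _
        have h1 : phi = uA 1 0 - 0 + fun x => - qq x := by
          ext x
          simp only [Pi.add_apply, Pi.sub_apply, Pi.zero_apply]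
          unfold uA phi Pool.Agent.K7.H86.QC.phi
          ring
        have hneg : ContDiff ℝ ∞ (fun x => (-1) * uA 0 0 x) := contDiff_const.mul (uA_contDiff 0 0)
        have h2 : phi = fun x => uA 1 0 x + (-1) * uA 0 0 x := by
          ext x
          unfold uA phi Pool.Agent.K7.H86.QC.phi
          ring
        have h3 : Δ phi = fun x => (Δ (uA 1 0)) x + (-1) * (Δ (uA 0 0)) x := by
          ext y
          rw [h2, lap_add (uA_contDiff 1 0) hneg, lap_const_mul (uA_contDiff 0 0)]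
        rw [h3, lap_add (lap_smooth (uA_contDiff 1 0)) (contDiff_const.mul (lap_smooth (uA_contDiff 0 0))),
          lap_const_mul (lap_smooth (uA_contDiff 0 0)), bilap_uA, bilap_uA]
        norm_num
    · intro α hα0 hα1
      rw [hset]
      intro K hK hKU ε hε
      have hg : ∀ n, ContDiff ℝ ∞ (fun x => uu P n x / bb n - Pool.Agent.K7.H86.QC.phi x) := fun n =>
        ((uu_contDiff P n).div_const _).sub phi_contDiff
      have h1 := holder_of_four (reg_open P) hg
        (fun K hK hKU ε hε => conv4 h hK hKU hε) hα0 hα1 hK hKU hε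
      exact hshift.eventually h1
  · rw [hS1', hZero]
  · intro K hK hK1 B
    exact hshift.eventually (blowup h hK hK1 B)
  · intro a ha
    exact hon _ ((hPm _).2 ⟨a, ha, rfl⟩)
  · intro k x
    exact VV_nonneg _ x

end Pool.Agent.Results.MP_e2b804_an.EveryFiniteSet
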